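import Mathlib
import Pool.Agent.Run7.h341.NLen.Fin
import Pool.Agent.Run7.h578.YE10F
import Pool.Agent.Q63.ISE.Man

/-!
# Yau's conjecture and the average doubling index on closed surfaces

For every closed connected smooth Riemannian surface `(M, g)` and all `C, C₁, C₂ > 0` there are `c > 0` and `A`
such that for every eigenfunction with the eigenvalue `lam` the length of the nodal set is between `c √lam` and
`A √lam` (Yau's conjecture) and for every admissible covering by discs of radius `C / √lam` the average of the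
doubling indices of the discs is at most `A` (Q1).

The surface is a Riemannian manifold of dimension two in the sense of Mathlib, with its geodesic distance; the
length is the one-dimensional Hausdorff measure of the distance.

Outline. The bound of the average doubling index is the helper theorem `Pool.Agent.Q73.AD.fin5` of the starting
tree, with the isothermal charts of `Pool.Agent.Q63.ISE.atlas`. The length of the nodal set is estimated in discs
of radius `≍ 1 / √lam` by the doubling exponent: if `|Δu| ≤ |u|`, then `L = (1/2) log (|∇u|² + u² + δ²)` satisfies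
`ΔL = div F + μ - 1` with `μ ≥ 0` and `|F| ≤ 1`, so the integral of `|∇L|` is bounded by the doubling exponent
`N` (representation of `L` by the logarithmic potential and the truncation `arctan (L / (1 + N))`), while the
divergence of `∇u / |(∇u, u, δ)|` is at most `1 + |∇L|`; testing with `arctan (u / ε)` and the coarea inequality
bound the length by `C (1 + N)`. The lower bound (Brüning) comes from `≍ lam` disjoint discs of radius `≍ 1 / √lam`
centred at zeros; the nodal set meets all circles with such a centre and radius.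
-/

set_option autoImplicit false
open MeasureTheory Filter Topology Complex Bundle
open scoped ContDiff Manifold

namespace Pool.Agent.Results.MP_c7f82c_an.NodalLength

noncomputable section

universe u v

/-! ### Riemannian manifolds of dimension two in the sense of Mathlib, modelled on a real normed space `E`
with a basis `b` of two vectors (for instance the Euclidean plane) -/

section

variable {E : Type v} [NormedAddCommGroup E] [NormedSpace ℝ E] (b : Module.Basis (Fin 2) ℝ E)
  {M : Type u} [TopologicalSpace M] [ChartedSpace E M]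

/-- the coordinate vector `∂_i` of the chart at `x₀`, at the point with coordinates `z` -/
def coordVec (x₀ : M) (z : E) (i : Fin 2) :
    TangentSpace 𝓘(ℝ, E) ((extChartAt 𝓘(ℝ, E) x₀).symm z) :=
  mfderiv 𝓘(ℝ, E) 𝓘(ℝ, E) (extChartAt 𝓘(ℝ, E) x₀).symm z (b i)

/-- the matrix `g_ij = ⟨∂_i, ∂_j⟩` of the metric in the chart at `x₀` -/
def metricMatrix [RiemannianBundle (fun x : M => TangentSpace 𝓘(ℝ, E) x)] (x₀ : M) (z : E) :
    Matrix (Fin 2) (Fin 2) ℝ :=
  Matrix.of fun i j => inner ℝ (coordVec b x₀ z i) (coordVec b x₀ z j)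

/-- the Laplace-Beltrami operator in coordinates: `(det g)^(-1/2) ∑_i ∂_i ((det g)^(1/2) ∑_j g^ij ∂_j h)` -/
def laplaceBeltrami (g : E → Matrix (Fin 2) (Fin 2) ℝ) (h : E → ℝ) (z : E) : ℝ :=
  (√((g z).det))⁻¹ * ∑ i, fderiv ℝ (fun y => √((g y).det) *
    ∑ j, (g y)⁻¹ i j * fderiv ℝ h y (b j)) z (b i)

/-- `f` is a real smooth eigenfunction on the Riemannian manifold `M`: `Δ_g f + lam f = 0`, `f ≢ 0` -/
structure IsEigenfunction [RiemannianBundle (fun x : M => TangentSpace 𝓘(ℝ, E) x)] (lam : ℝ)
    (f : M → ℝ) : Prop where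
  smooth : ContMDiff 𝓘(ℝ, E) 𝓘(ℝ, ℝ) ∞ f
  eq : ∀ x₀ : M, ∀ z ∈ (extChartAt 𝓘(ℝ, E) x₀).target,
    laplaceBeltrami b (metricMatrix b x₀) (fun y => f ((extChartAt 𝓘(ℝ, E) x₀).symm y)) z
      + lam * f ((extChartAt 𝓘(ℝ, E) x₀).symm z) = 0
  ne : ∃ x, f x ≠ 0

end

/-- the doubling index of `f` on the geodesic disc with centre `x` and radius `r` -/
def doubling {M : Type u} [MetricSpace M] (f : M → ℝ) (x : M) (r : ℝ) : ℝ :=
  Real.logb 2 (sSup ((fun y => |f y|) '' Metric.ball x (2 * r)) /
    sSup ((fun y => |f y|) '' Metric.ball x r))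

/-- The geodesic discs of radius `C / √lam` with centres `x i` are an admissible covering for `f` with
constants `C`, `C₁`, `C₂`: they cover `M`, their number is between `lam / C₂` and `C₂ lam`, every point is in at
most `C₁` of them, and `f` vanishes at the centres. -/
structure Admissible {M : Type u} [MetricSpace M] (f : M → ℝ) (lam C C₁ C₂ : ℝ) {κ : Type}
    [Fintype κ] (x : κ → M) : Prop where
  cover : ∀ y : M, ∃ i, y ∈ Metric.ball (x i) (C / Real.sqrt lam)
  card_ge : C₂⁻¹ * lam ≤ (Fintype.card κ : ℝ)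
  card_le : (Fintype.card κ : ℝ) ≤ C₂ * lam
  mult : ∀ y : M, ({i | y ∈ Metric.ball (x i) (C / Real.sqrt lam)}.ncard : ℝ) ≤ C₁
  zero : ∀ i, f (x i) = 0

/-- **Yau's bounds for the length of the nodal set, and the bound of the average doubling index**, on every
closed connected Riemannian surface (smooth Riemannian manifold of dimension two, in the sense of Mathlib, with
its geodesic distance). -/
theorem result : ∀ (E : Type v) [NormedAddCommGroup E] [NormedSpace ℝ E] (b : Module.Basis (Fin 2) ℝ E)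
    (M : Type u) [MetricSpace M] [MeasurableSpace M] [BorelSpace M] [ChartedSpace E M]
    [IsManifold 𝓘(ℝ, E) ∞ M] [RiemannianBundle (fun x : M => TangentSpace 𝓘(ℝ, E) x)]
    [IsContMDiffRiemannianBundle 𝓘(ℝ, E) ∞ E (fun x : M => TangentSpace 𝓘(ℝ, E) x)]
    [IsRiemannianManifold 𝓘(ℝ, E) M] [CompactSpace M] [ConnectedSpace M],
    ∀ C C₁ C₂ : ℝ, 0 < C → 0 < C₁ → 0 < C₂ → ∃ c A : ℝ, 0 < c ∧
      ∀ (lam : ℝ) (f : M → ℝ), 0 < lam → IsEigenfunction b lam f →
      ENNReal.ofReal (c * Real.sqrt lam) ≤ μH[1] {x : M | f x = 0} ∧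
      μH[1] {x : M | f x = 0} ≤ ENNReal.ofReal (A * Real.sqrt lam) ∧
      ∀ (κ : Type) [Fintype κ] (x : κ → M), Admissible f lam C C₁ C₂ x →
        (∑ i, doubling f (x i) (C / Real.sqrt lam)) / (Fintype.card κ : ℝ) ≤ A := by
  intro E _ _ b M _ _ _ _ _ _ _ _ _ _ C C₁ C₂ hC hC₁ hC₂
  obtain ⟨U, φ, ρ, hR, hs, hE⟩ := Pool.Agent.Q63.ISE.atlas b M
  have hR' : Pool.Agent.Q73.AD.Riem U φ ρ := ⟨hR.dom, hR.inj, hR.cont,
    hR.opn, hR.cover, hR.pos, hR.dens, hR.trans, hR.geod⟩
  have hatl := Pool.Agent.Q73.AD.tr1 M M U φ ρ hR'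
  obtain ⟨A, hA⟩ := Run7.h341.NLen.te8.{u, u} M M U φ ρ hatl hR.pos hs
  obtain ⟨A', -, hA'⟩ := Pool.Agent.Q73.AD.fin5.{u, u} M M U φ ρ hatl
    (fun i z hz => (hR.pos i z hz).le) C C₁ C₂ hC hC₁ hC₂
  obtain ⟨c, hc, hlow⟩ := Run7.h578.E10.te10.{u, u} M M U φ ρ hatl hR.pos hs
  refine ⟨c, max A A', hc, fun lam f hlam hf => ⟨?_, ?_, fun κ _ x hx => ?_⟩⟩
  · exact hlow lam f hlam (hE lam f ⟨hf.smooth, hf.eq⟩) hf.ne
  · exact (hA lam f hlam (hE lam f ⟨hf.smooth, hf.eq⟩) hf.ne).trans
      (ENNReal.ofReal_le_ofReal (mul_le_mul_of_nonneg_right (le_max_left _ _) (Real.sqrt_nonneg _)))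
  · exact (hA' lam f κ x hlam (hE lam f ⟨hf.smooth, hf.eq⟩) hf.ne hx.mult hx.card_ge).trans
      (le_max_right _ _)

end

end Pool.Agent.Results.MP_c7f82c_an.NodalLength
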